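import Pool.Agent.SubTyp.CodMany

/-!
# Arbitrarily many typical ranks with respect to `Sub_{m-1}(Sⁿ ℝ^m)`, `m ≥ 4` even

For every even `m ≥ 4` and every `K` there is a degree `n` such that `K + 1` consecutive integers
are typical ranks with respect to the symmetric subspace variety `Sub_{m-1}(Sⁿ ℝ^m)` over `ℝ`.
-/

namespace Pool.Agent.Attic.MP_18ca16_ag.ManyRanks

open Pool.Agent.SubTyp

theorem result (m : ℕ) (hm : 4 ≤ m) (he : Even m) (K : ℕ) : ∃ n a : ℕ, 1 ≤ n ∧
    ∀ d, a ≤ d → d ≤ a + K → IsTypicalRank (SymSubVar n m (m - 1)) d :=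
  many_typical hm he K

end Pool.Agent.Attic.MP_18ca16_ag.ManyRanks
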